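import Pool.Agent.Helper1_PRS.Stmts

/-!
# Squad PRS, module EVN: order at the good nodes
-/

set_option autoImplicit false

universe u

namespace Pool.Agent.PRS.H47

open MvPolynomial PGH

theorem ge_rat {L E : Type u} [Field L] [Field E] [CharZero L] [CharZero E] [Algebra L E]
    (P : Place L E) (r : ℚ) : P.Ge 0 (algebraMap ℚ E r) := by
  have h := P.ge_const (r : L)
  rw [map_ratCast] at h
  rw [eq_ratCast]
  exact h

theorem ge_aeval {L E : Type u} [Field L] [Field E] [CharZero L] [CharZero E] [Algebra L E]
    (P : Place L E) {V : Type} (z : V → E) (hz : ∀ v, P.Ge 0 (z v)) (Q : MvPolynomial V ℚ) :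
    P.Ge 0 (aeval z Q) := by
  induction Q using MvPolynomial.induction_on with
  | C r =>
    rw [aeval_C]
    exact ge_rat P r
  | add p q hp hq =>
    rw [map_add]
    exact hp.add hq
  | mul_X p v hp =>
    rw [map_mul, aeval_X]
    exact hp.mul' (hz v) (by norm_num)

theorem ge_iter {L E : Type u} [Field L] [Field E] [Algebra L E] {P : Place L E}
    {D : Derivation ℤ E E} (hD : DGe P D 0) {y : E} (hy : P.Ge 0 y) (n : ℕ) :
    P.Ge 0 ((⇑D)^[n] y) := by
  induction n with
  | zero => exact hy
  | succ n ih =>
    rw [Function.iterate_succ_apply']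
    exact hD _ ih

/-- EVN: order at the good nodes -/
theorem evn : EvnStmt.{u} := by
  intro L E _ _ _ _ _ P D hD N m d a x ha i j h0 h1 Q hQ
  set α := algebraMap L E (a (0, i)) with hα
  set β := algebraMap L E (a (1, j)) with hβ
  set w := x 0 - α with hw
  have hw0 : w ≠ 0 := by
    intro h
    rw [h, P.ord_zero] at h0
    exact zero_ne_one h0
  set η := (x 1 - β) / w with hη
  have hwη : w * η = x 1 - β := mul_div_cancel₀ _ hw0
  have hwge : P.Ge 1 w := (P.ge_iff hw0).2 h0.ge
  have hηge : P.Ge 0 η := by
    rw [hη, div_eq_mul_inv]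
    have hinv : P.Ge (-1) w⁻¹ := (P.ge_iff (inv_ne_zero hw0)).2 (by rw [P.ord_inv, h0])
    exact h1.mul' hinv (by norm_num)
  have hDα : D α = 0 := ha (0, i)
  have hDβ : D β = 0 := ha (1, j)
  have hDw : D w = D (x 0) := by rw [hw, map_sub, hDα, sub_zero]
  have hDwη : D w * η + w * D η = D (x 1) := by
    have h : D (w * η) = D (x 1) := by rw [hwη, map_sub, hDβ, sub_zero]
    rw [D.leibniz, smul_eq_mul, smul_eq_mul] at h
    rw [← h]
    ring
  have hDD : D (D w) * η + 2 * (D w * D η) + w * D (D η) = D (D (x 1)) := by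
    have h : D (D w * η + w * D η) = D (D (x 1)) := by rw [hDwη]
    rw [map_add, D.leibniz, D.leibniz, smul_eq_mul, smul_eq_mul, smul_eq_mul, smul_eq_mul] at h
    rw [← h]
    ring
  set z' : J ⊕ Par N → E := Sum.elim (jet D ![w, η]) (fun q => algebraMap L E (a q)) with hz'
  have hcomp : (aeval z').comp (node i j) =
      (aeval (Sum.elim (jet D x) (fun q => algebraMap L E (a q))) : S N →ₐ[ℚ] E) := by
    refine algHom_ext fun v => ?_
    rw [AlgHom.comp_apply, node, aeval_X, aeval_X]
    rcases v with ⟨c, l⟩ | q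
    · fin_cases c
      · fin_cases l
        · change aeval z' (pa 0 i + jv N 0 0) = x 0
          rw [pa, jv, map_add, aeval_X, aeval_X]
          change α + w = x 0
          rw [hw]
          ring
        · change aeval z' (jv N 0 1) = D (x 0)
          rw [jv, aeval_X]
          exact hDw
        · change aeval z' (jv N 0 2) = D (D (x 0))
          rw [jv, aeval_X]
          change D (D w) = D (D (x 0))
          rw [hDw]
      · fin_cases l
        · change aeval z' (pa 1 j + jv N 0 0 * jv N 1 0) = x 1
          rw [pa, jv, jv, map_add, map_mul, aeval_X, aeval_X, aeval_X]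
          change β + w * η = x 1
          rw [hwη]
          ring
        · change aeval z' (jv N 0 1 * jv N 1 0 + jv N 0 0 * jv N 1 1) = D (x 1)
          rw [jv, jv, jv, jv, map_add, map_mul, map_mul, aeval_X, aeval_X, aeval_X, aeval_X]
          exact hDwη
        · change aeval z' (jv N 0 2 * jv N 1 0 + 2 * (jv N 0 1 * jv N 1 1) +
            jv N 0 0 * jv N 1 2) = D (D (x 1))
          rw [jv, jv, jv, jv, jv, jv, map_add, map_add, map_mul, map_mul, map_mul, map_mul,
            aeval_X, aeval_X, aeval_X, aeval_X, aeval_X, aeval_X, map_ofNat]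
          exact hDD
    · change aeval z' (X (Sum.inr q)) = algebraMap L E (a q)
      rw [aeval_X]
      rfl
  obtain ⟨W, hW⟩ := hQ.node i j
  have hval : aeval (Sum.elim (jet D x) (fun q => algebraMap L E (a q))) Q =
      w ^ (2 * m) * aeval z' W := by
    rw [← hcomp, AlgHom.comp_apply, hW, map_mul, map_pow, jv, aeval_X]
    rfl
  rw [hval]
  have hWge : P.Ge 0 (aeval z' W) := by
    refine ge_aeval P z' (fun v => ?_) W
    rcases v with ⟨c, l⟩ | q
    · change P.Ge 0 ((⇑D)^[(l : ℕ)] (![w, η] c))
      apply ge_iter hD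
      fin_cases c
      · exact hwge.mono (by norm_num)
      · exact hηge
    · exact P.ge_const _
  refine (hwge.pow (2 * m)).mul' hWge ?_
  push_cast
  omega

end Pool.Agent.PRS.H47
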