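import Pool.Agent.Helper1_PRS.Stmts

/-!
# Squad PRS, module HGT: bounded heights for pairs
-/

set_option autoImplicit false

universe u

namespace Pool.Agent.PRS.H47H

open MvPolynomial PGH

section

variable {L E : Type u} [Field L] [Field E] [Algebra L E] [IsAlgClosed L] [CharZero L] [FF L E]

theorem exists_big {ι : Type} [Finite ι] (f : ι → E) :
    ∃ s : Finset (Place L E), ∀ i, ∀ P ∉ s, P.ord (f i) = 0 := by
  classical
  have h : (⋃ i, {P : Place L E | P.ord (f i) ≠ 0}).Finite :=
    Set.finite_iUnion (fun i => finite_support (f i))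
  refine ⟨h.toFinset, fun i P hP => ?_⟩
  by_contra h0
  apply hP
  rw [Set.Finite.mem_toFinset]
  exact Set.mem_iUnion.2 ⟨i, h0⟩

theorem ht_sub_const (x : E) (c : L) : ht L (x - algebraMap L E c) = ht L x := by
  apply le_antisymm
  · have h := ht_add_le (L := L) x (algebraMap L E (-c))
    rw [ht_const, add_zero, map_neg, ← sub_eq_add_neg] at h
    exact h
  · have h := ht_add_le (L := L) (x - algebraMap L E c) (algebraMap L E c)
    rw [ht_const, add_zero, sub_add_cancel] at h
    exact h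

theorem sum_zeros_eq (y : E) (s : Finset (Place L E)) (hs : ∀ P ∉ s, P.ord y = 0) :
    ∑ P ∈ s, max 0 (P.ord y) = ht L y := by
  have h := sum_poles_eq y⁻¹ s (fun P hP => by rw [P.ord_inv, hs P hP, neg_zero])
  rw [ht_inv] at h
  rw [← h]
  refine Finset.sum_congr rfl fun P _ => ?_
  rw [P.ord_inv, neg_neg]

theorem card_filter_le {α : Type u} (s : Finset α) (p : α → Prop) [DecidablePred p] (f : α → ℤ)
    (h : ∀ P ∈ s, p P → 1 ≤ f P) (h0 : ∀ P ∈ s, 0 ≤ f P) :
    ((s.filter p).card : ℤ) ≤ ∑ P ∈ s, f P := by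
  calc ((s.filter p).card : ℤ) = ∑ P ∈ s.filter p, (1 : ℤ) := by simp
    _ ≤ ∑ P ∈ s.filter p, f P := Finset.sum_le_sum fun P hP => by
        rw [Finset.mem_filter] at hP
        exact h P hP.1 hP.2
    _ ≤ ∑ P ∈ s, f P :=
        Finset.sum_le_sum_of_subset_of_nonneg (Finset.filter_subset _ _) (fun P hP _ => h0 P hP)

theorem pointwise (P : Place L E) {N : ℕ} (x : E) (a : Fin N → L) (ha : Function.Injective a)
    (hx : ∀ i, x ≠ algebraMap L E (a i)) (p : Prop) [Decidable p]
    (hp : (∃ i, P.ord (x - algebraMap L E (a i)) = 1) → p) :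
    ∑ i, max 0 (P.ord (x - algebraMap L E (a i))) ≤
      (if p then (1 : ℤ) else 0) + 2 * ∑ i, max 0 (P.ord (x - algebraMap L E (a i)) - 1) := by
  classical
  have h1 : ∑ i, max 0 (P.ord (x - algebraMap L E (a i))) ≤
      ∑ i, ((if P.ord (x - algebraMap L E (a i)) = 1 then (1 : ℤ) else 0) +
        2 * max 0 (P.ord (x - algebraMap L E (a i)) - 1)) := by
    refine Finset.sum_le_sum fun i _ => ?_
    split_ifs with h
    · rw [h]; norm_num
    · omega
  refine h1.trans ?_
  rw [Finset.sum_add_distrib, ← Finset.mul_sum]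
  refine add_le_add ?_ le_rfl
  rw [Finset.sum_ite, Finset.sum_const_zero, add_zero, Finset.sum_const, nsmul_eq_mul, mul_one]
  split_ifs with h
  · have : (Finset.univ.filter (fun i => P.ord (x - algebraMap L E (a i)) = 1)).card ≤ 1 := by
      rw [Finset.card_le_one]
      intro i hi j hj
      rw [Finset.mem_filter] at hi hj
      have hi' : P.Ge 1 (x - algebraMap L E (a i)) :=
        (P.ge_iff (sub_ne_zero.2 (hx i))).2 hi.2.ge
      have hj' : P.Ge 1 (x - algebraMap L E (a j)) :=
        (P.ge_iff (sub_ne_zero.2 (hx j))).2 hj.2.ge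
      exact ha (P.res_unique hi' hj')
    exact_mod_cast this
  · have : Finset.univ.filter (fun i => P.ord (x - algebraMap L E (a i)) = 1) = ∅ := by
      rw [Finset.filter_eq_empty_iff]
      intro i _ hi
      exact h (hp ⟨i, hi⟩)
    rw [this]
    simp

theorem cnt (N : ℕ) (x : E) (a : Fin N → L) (ha : Function.Injective a)
    (hx : ∀ i, x ≠ algebraMap L E (a i)) (s : Finset (Place L E))
    (hs : ∀ i, ∀ P ∉ s, P.ord (x - algebraMap L E (a i)) = 0) (p : Place L E → Prop)
    [DecidablePred p] (hp : ∀ P, (∃ i, P.ord (x - algebraMap L E (a i)) = 1) → p P)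
    (R : ℤ) (hR : ∑ P ∈ s, ∑ i, max 0 (P.ord (x - algebraMap L E (a i)) - 1) ≤ R) :
    (N : ℤ) * ht L x ≤ ((s.filter p).card : ℤ) + 2 * R := by
  have h1 : (N : ℤ) * ht L x = ∑ P ∈ s, ∑ i, max 0 (P.ord (x - algebraMap L E (a i))) := by
    rw [Finset.sum_comm]
    rw [Finset.sum_congr rfl (fun i _ => sum_zeros_eq _ s (hs i))]
    simp only [ht_sub_const, Finset.sum_const, Finset.card_univ, Fintype.card_fin, nsmul_eq_mul]
  rw [h1]
  refine (Finset.sum_le_sum fun P _ => pointwise P x a ha hx (p P) (hp P)).trans ?_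
  rw [Finset.sum_add_distrib, ← Finset.mul_sum, Finset.sum_ite, Finset.sum_const_zero, add_zero,
    Finset.sum_const, nsmul_eq_mul, mul_one]
  linarith

end

/-- HGT: bounded heights for pairs -/
theorem hgt (h1 : EvpStmt.{u}) (h2 : EvnStmt.{u}) (h3 : PatStmt.{u}) (h4 : RamStmt.{u}) :
    HgtStmt.{u} := by
  classical
  intro L E _ _ _ _ _ _ _ D hconst cp sc hcp hDP N R m x a α M b z hN hm hinj hDa hxa hrel hQ
  set Cp : ℤ := ∑ P ∈ sc, (cp P : ℤ) with hCp
  set Bd : ℤ := ∑ r, 2 * (ht L (b r) : ℤ) with hBd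
  have hCp0 : 0 ≤ Cp := Finset.sum_nonneg fun P _ => by positivity
  have hBd0 : 0 ≤ Bd := Finset.sum_nonneg fun P _ => by positivity
  suffices hmain : ∀ c, (ht L (x c) : ℤ) ≤ 10 * Cp + 10 * Bd by
    intro c
    have h := hmain c
    rw [hCp, hBd] at h
    exact_mod_cast h
  -- a big finite set
  have big : ∀ y : E, ∃ s : Finset (Place L E), sc ⊆ s ∧ (∀ P ∉ s, P.ord y = 0) ∧
      (∀ q : Par N, ∀ P ∉ s, P.ord (x q.1 - algebraMap L E (a q)) = 0) ∧
      ∀ r, ∀ P ∉ s, P.ord (b r) = 0 := by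
    intro y
    obtain ⟨s1, hs1⟩ := exists_big (L := L) (fun q : Par N => x q.1 - algebraMap L E (a q))
    obtain ⟨s2, hs2⟩ := exists_big (L := L) b
    obtain ⟨s3, hs3⟩ := exists_big (L := L) (fun _ : Unit => y)
    refine ⟨(sc ∪ s1) ∪ (s2 ∪ s3), ?_, ?_, ?_, ?_⟩
    · exact Finset.subset_union_left.trans Finset.subset_union_left
    · intro P hP
      simp only [Finset.mem_union, not_or] at hP
      exact hs3 () P hP.2.2
    · intro q P hP
      simp only [Finset.mem_union, not_or] at hP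
      exact hs1 q P hP.1.2
    · intro r P hP
      simp only [Finset.mem_union, not_or] at hP
      exact hs2 r P hP.2.1
  have hcps : ∀ s : Finset (Place L E), sc ⊆ s → ∑ P ∈ s, (cp P : ℤ) = Cp := by
    intro s hs
    symm
    refine Finset.sum_subset hs fun P _ hP => ?_
    rw [hcp P hP, Nat.cast_zero]
  have hbad : ∀ s : Finset (Place L E), sc ⊆ s → (∀ r, ∀ P ∉ s, P.ord (b r) = 0) →
      ((s.filter (fun P => cp P ≠ 0 ∨ ∃ r, P.ord (b r) ≠ 0)).card : ℤ) ≤ Cp + Bd := by
    intro s hs hsb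
    have hnn : ∀ (P : Place L E) (r : Fin R),
        0 ≤ max 0 (P.ord (b r)) + max 0 (-P.ord (b r)) := fun P r => by positivity
    have h := card_filter_le s (fun P => cp P ≠ 0 ∨ ∃ r, P.ord (b r) ≠ 0)
      (fun P => (cp P : ℤ) + ∑ r, (max 0 (P.ord (b r)) + max 0 (-P.ord (b r)))) (by
        intro P _ hP
        have hs0 : 0 ≤ ∑ r, (max 0 (P.ord (b r)) + max 0 (-P.ord (b r))) :=
          Finset.sum_nonneg fun r _ => hnn P r
        rcases hP with hP | ⟨r, hr⟩
        · have : (1 : ℤ) ≤ (cp P : ℤ) := by exact_mod_cast Nat.one_le_iff_ne_zero.2 hP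
          change (1 : ℤ) ≤ (cp P : ℤ) + _
          linarith
        · have hle : max 0 (P.ord (b r)) + max 0 (-P.ord (b r)) ≤
              ∑ r, (max 0 (P.ord (b r)) + max 0 (-P.ord (b r))) :=
            Finset.single_le_sum (f := fun r => max 0 (P.ord (b r)) + max 0 (-P.ord (b r)))
              (fun r _ => hnn P r) (Finset.mem_univ r)
          have h1 : 1 ≤ max 0 (P.ord (b r)) + max 0 (-P.ord (b r)) := by omega
          have : (0 : ℤ) ≤ (cp P : ℤ) := by positivity
          change (1 : ℤ) ≤ (cp P : ℤ) + _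
          linarith) (by
        intro P _
        have hs0 : 0 ≤ ∑ r, (max 0 (P.ord (b r)) + max 0 (-P.ord (b r))) :=
          Finset.sum_nonneg fun r _ => hnn P r
        change (0 : ℤ) ≤ (cp P : ℤ) + _
        positivity)
    refine h.trans (le_of_eq ?_)
    rw [Finset.sum_add_distrib, hcps s hs, Finset.sum_comm]
    congr 1
    refine Finset.sum_congr rfl fun r _ => ?_
    rw [Finset.sum_add_distrib, sum_zeros_eq _ s (hsb r), sum_poles_eq _ s (hsb r)]
    ring
  have hram : ∀ c, D (x c) ≠ 0 → ∀ s : Finset (Place L E),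
      ∑ P ∈ s, ∑ i, max 0 (P.ord (x c - algebraMap L E (a (c, i))) - 1) ≤
        2 * (ht L (x c) : ℤ) + Cp := by
    intro c hc s
    have h := h4 D cp sc hcp hDP N (fun i => a (c, i)) (x c) (hinj c) (fun i => hDa (c, i)) hc ∅
      (fun P hP => absurd hP (Set.notMem_empty P)) s
    simp only [Set.mem_empty_iff_false, if_false] at h
    exact h
  by_cases hD : ∀ c, D (x c) ≠ 0
  · obtain ⟨Q, hQA, hQ0⟩ := hQ hD
    set y := aeval (Sum.elim (jet D x) (fun q => algebraMap L E (a q))) Q with hy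
    obtain ⟨s, hsc, hsy, hsw, hsb⟩ := big y
    have hcnt : ∀ c, (N : ℤ) * ht L (x c) ≤
        ((s.filter (fun P => ∃ i, P.ord (x c - algebraMap L E (a (c, i))) = 1)).card : ℤ) +
          2 * (2 * (ht L (x c) : ℤ) + Cp) := fun c =>
      cnt N (x c) (fun i => a (c, i)) (hinj c) (fun i => hxa (c, i)) s (fun i => hsw (c, i)) _
        (fun P h => h) _ (hram c (hD c) s)
    set T := s.filter (fun P => cp P = 0 ∧
      (∃ i, P.ord (x 0 - algebraMap L E (a (0, i))) = 1) ∧
      ∃ j, P.Ge 1 (x 1 - algebraMap L E (a (1, j)))) with hT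
    set Bad := s.filter (fun P => cp P ≠ 0 ∨ ∃ r, P.ord (b r) ≠ 0) with hBad
    have hBadc : (Bad.card : ℤ) ≤ Cp + Bd := hbad s hsc hsb
    have hPo : ∀ c, ((s.filter (fun P => P.ord (x c) < 0)).card : ℤ) ≤ ht L (x c) := by
      intro c
      refine (card_filter_le s (fun P => P.ord (x c) < 0) (fun P => max 0 (-P.ord (x c)))
        (fun P _ hP => by
          change (1 : ℤ) ≤ max 0 (-P.ord (x c))
          change P.ord (x c) < 0 at hP
          omega) (fun P _ => le_max_left _ _)).trans (sum_poles_le _ _)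
    have hRm : ((s.filter (fun P => ∃ i, 2 ≤ P.ord (x 0 - algebraMap L E (a (0, i))))).card : ℤ) ≤
        2 * (ht L (x 0) : ℤ) + Cp := by
      refine (card_filter_le s (fun P => ∃ i, 2 ≤ P.ord (x 0 - algebraMap L E (a (0, i))))
        (fun P => ∑ i, max 0 (P.ord (x 0 - algebraMap L E (a (0, i))) - 1)) ?_ ?_).trans
          (hram 0 (hD 0) s)
      · rintro P _ ⟨i, hi⟩
        have h : max 0 (P.ord (x 0 - algebraMap L E (a (0, i))) - 1) ≤
            ∑ i, max 0 (P.ord (x 0 - algebraMap L E (a (0, i))) - 1) :=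
          Finset.single_le_sum (f := fun i => max 0 (P.ord (x 0 - algebraMap L E (a (0, i))) - 1))
            (fun i _ => le_max_left _ _) (Finset.mem_univ i)
        change (1 : ℤ) ≤ ∑ i, max 0 (P.ord (x 0 - algebraMap L E (a (0, i))) - 1)
        omega
      · intro P _
        exact Finset.sum_nonneg fun i _ => le_max_left _ _
    have hge0 : ∀ (P : Place L E) (c : Fin 2), ¬ P.ord (x c) < 0 → P.Ge 0 (x c) := by
      intro P c h
      exact P.ge_ord.mono (by omega)
    have hnb : ∀ P ∈ s, P ∉ Bad → cp P = 0 ∧ ∀ r, P.ord (b r) = 0 := by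
      intro P hP hPB
      rw [hBad, Finset.mem_filter, not_and_or, not_or] at hPB
      rcases hPB with h | ⟨h5, h6⟩
      · exact absurd hP h
      · push Not at h5 h6
        exact ⟨h5, h6⟩
    have hS0 : s.filter (fun P => ∃ i, P.ord (x 0 - algebraMap L E (a (0, i))) = 1) ⊆
        T ∪ (Bad ∪ s.filter (fun P => P.ord (x 1) < 0)) := by
      intro P hP
      rw [Finset.mem_filter] at hP
      obtain ⟨hPs, i, hi⟩ := hP
      rw [Finset.mem_union, Finset.mem_union]
      by_cases hPB : P ∈ Bad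
      · exact Or.inr (Or.inl hPB)
      by_cases hPp : P.ord (x 1) < 0
      · exact Or.inr (Or.inr (Finset.mem_filter.2 ⟨hPs, hPp⟩))
      obtain ⟨h5, h6⟩ := hnb P hPs hPB
      obtain ⟨j, hj⟩ := h3 P N R x a α M b z hinj hxa hrel h6 0 1 i (by decide) hi (hge0 P 1 hPp)
      exact Or.inl (Finset.mem_filter.2 ⟨hPs, h5, ⟨i, hi⟩, ⟨j, hj⟩⟩)
    have hS1 : s.filter (fun P => ∃ i, P.ord (x 1 - algebraMap L E (a (1, i))) = 1) ⊆
        T ∪ (Bad ∪ (s.filter (fun P => P.ord (x 0) < 0) ∪
          s.filter (fun P => ∃ i, 2 ≤ P.ord (x 0 - algebraMap L E (a (0, i)))))) := by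
      intro P hP
      rw [Finset.mem_filter] at hP
      obtain ⟨hPs, j, hj⟩ := hP
      rw [Finset.mem_union, Finset.mem_union, Finset.mem_union]
      by_cases hPB : P ∈ Bad
      · exact Or.inr (Or.inl hPB)
      by_cases hPp : P.ord (x 0) < 0
      · exact Or.inr (Or.inr (Or.inl (Finset.mem_filter.2 ⟨hPs, hPp⟩)))
      obtain ⟨h5, h6⟩ := hnb P hPs hPB
      obtain ⟨i, hi⟩ := h3 P N R x a α M b z hinj hxa hrel h6 1 0 j (by decide) hj (hge0 P 0 hPp)
      have hi' : 1 ≤ P.ord (x 0 - algebraMap L E (a (0, i))) :=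
        (P.ge_iff (sub_ne_zero.2 (hxa (0, i)))).1 hi
      by_cases hi2 : 2 ≤ P.ord (x 0 - algebraMap L E (a (0, i)))
      · exact Or.inr (Or.inr (Or.inr (Finset.mem_filter.2 ⟨hPs, i, hi2⟩)))
      · refine Or.inl (Finset.mem_filter.2 ⟨hPs, h5, ⟨i, by omega⟩, ⟨j, ?_⟩⟩)
        exact (P.ge_iff (sub_ne_zero.2 (hxa (1, j)))).2 hj.ge
    have hn0 := (Finset.card_le_card hS0).trans (Finset.card_union_le _ _)
    have hn0' := Finset.card_union_le Bad (s.filter (fun P => P.ord (x 1) < 0))
    have hn1 := (Finset.card_le_card hS1).trans (Finset.card_union_le _ _)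
    have hn1' := Finset.card_union_le Bad (s.filter (fun P => P.ord (x 0) < 0) ∪
          s.filter (fun P => ∃ i, 2 ≤ P.ord (x 0 - algebraMap L E (a (0, i)))))
    have hn1'' := Finset.card_union_le (s.filter (fun P => P.ord (x 0) < 0))
          (s.filter (fun P => ∃ i, 2 ≤ P.ord (x 0 - algebraMap L E (a (0, i)))))
    -- the value
    have hval : 2 * (T.card : ℤ) ≤ ((N : ℤ) - 8) * (ht L (x 0) + ht L (x 1)) + 2 * Cp := by
      have hA : (((N - 9) * m + m : ℕ) : ℤ) = ((N : ℤ) - 8) * m := by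
        rw [Nat.cast_add, Nat.cast_mul, Nat.cast_sub (by omega : 9 ≤ N)]
        push_cast
        ring
      have hN8 : (0 : ℤ) ≤ (N : ℤ) - 8 := by
        have : (13 : ℤ) ≤ N := by exact_mod_cast hN
        linarith
      have hm0 : (0 : ℤ) < m := by exact_mod_cast hm
      have hpt : ∀ P ∈ s, (if P ∈ T then 2 * (m : ℤ) else 0) -
          (((N : ℤ) - 8) * m * (max 0 (-P.ord (x 0)) + max 0 (-P.ord (x 1))) +
            2 * m * cp P) ≤ P.ord y := by
        intro P hPs
        have hnn1 : 0 ≤ max 0 (-P.ord (x 0)) := le_max_left _ _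
        have hnn2 : 0 ≤ max 0 (-P.ord (x 1)) := le_max_left _ _
        split_ifs with hPT
        · rw [hT, Finset.mem_filter] at hPT
          obtain ⟨-, h5, ⟨i, hi⟩, ⟨j, hj⟩⟩ := hPT
          have hD0 : DGe P D 0 := by
            have := hDP P
            rw [h5] at this
            exact this.mono (by simp)
          have h6 := h2 P D hD0 N m ((N - 9) * m) a x hDa i j hi hj Q hQA
          have h7 := (P.ge_iff hQ0).1 h6
          have h8 : 0 ≤ ((N : ℤ) - 8) * m * (max 0 (-P.ord (x 0)) + max 0 (-P.ord (x 1))) +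
            2 * m * cp P := by positivity
          linarith
        · have h6 := h1 P D (cp P) (hDP P) N m ((N - 9) * m) a x
            (fun c => (max 0 (-P.ord (x c))).toNat) (fun c => P.ge_ord.mono (by
              rw [Int.toNat_of_nonneg (le_max_left _ _)]
              omega)) Q hQA
          have h7 := (P.ge_iff hQ0).1 h6
          rw [Nat.cast_add, Nat.cast_mul, Nat.cast_add ((max 0 (-P.ord (x 0))).toNat),
            Int.toNat_of_nonneg hnn1, Int.toNat_of_nonneg hnn2, hA] at h7
          push_cast at h7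
          linarith
      have hsum := Finset.sum_le_sum hpt
      rw [sum_ord_eq_zero y s hsy, Finset.sum_sub_distrib, Finset.sum_add_distrib,
        ← Finset.mul_sum, ← Finset.mul_sum, Finset.sum_add_distrib, hcps s hsc] at hsum
      have hTs : ∑ P ∈ s, (if P ∈ T then 2 * (m : ℤ) else 0) = 2 * m * T.card := by
        rw [Finset.sum_ite_mem, Finset.sum_const, nsmul_eq_mul]
        have : s ∩ T = T := by
          rw [Finset.inter_eq_right]
          exact Finset.filter_subset _ _
        rw [this]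
        ring
      rw [hTs] at hsum
      have hp0 := sum_poles_le (x 0) s
      have hp1 := sum_poles_le (x 1) s
      have hp : ((N : ℤ) - 8) * m * (∑ P ∈ s, max 0 (-P.ord (x 0)) +
          ∑ P ∈ s, max 0 (-P.ord (x 1))) ≤ ((N : ℤ) - 8) * m * (ht L (x 0) + ht L (x 1)) :=
        mul_le_mul_of_nonneg_left (add_le_add hp0 hp1) (by positivity)
      refine le_of_mul_le_mul_left ?_ hm0
      linarith
    have hc0 := hcnt 0
    have hc1 := hcnt 1
    have hp0 := hPo 0
    have hp1 := hPo 1
    have hh0 : (0 : ℤ) ≤ ht L (x 0) := by positivity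
    have hh1 : (0 : ℤ) ≤ ht L (x 1) := by positivity
    zify at hn0 hn0' hn1 hn1' hn1''
    have hfin : (ht L (x 0) : ℤ) + 3 * ht L (x 1) ≤ 9 * Cp + 2 * Bd := by linarith
    intro c
    fin_cases c
    · change (ht L (x 0) : ℤ) ≤ _
      linarith
    · change (ht L (x 1) : ℤ) ≤ _
      linarith
  · push Not at hD
    obtain ⟨c0, hc0⟩ := hD
    obtain ⟨κ, hκ⟩ := hconst _ hc0
    intro c
    by_cases hc : D (x c) = 0
    · obtain ⟨κ', hκ'⟩ := hconst _ hc
      rw [← hκ', ht_const, Nat.cast_zero]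
      linarith
    · have hne : c ≠ c0 := by
        rintro rfl
        exact hc hc0
      obtain ⟨s, hsc, -, hsw, hsb⟩ := big 0
      have hcnt := cnt N (x c) (fun i => a (c, i)) (hinj c) (fun i => hxa (c, i)) s
        (fun i => hsw (c, i)) (fun P => ∃ i, P.ord (x c - algebraMap L E (a (c, i))) = 1)
        (fun P h => h) _ (hram c hc s)
      have hsub : s.filter (fun P => ∃ i, P.ord (x c - algebraMap L E (a (c, i))) = 1) ⊆
          s.filter (fun P => cp P ≠ 0 ∨ ∃ r, P.ord (b r) ≠ 0) := by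
        intro P hP
        rw [Finset.mem_filter] at hP ⊢
        obtain ⟨hPs, i, hi⟩ := hP
        refine ⟨hPs, ?_⟩
        by_contra hcon
        rw [not_or] at hcon
        obtain ⟨-, h6⟩ := hcon
        push Not at h6
        obtain ⟨j, hj⟩ := h3 P N R x a α M b z hinj hxa hrel h6 c c0 i hne hi
          (by rw [← hκ]; exact P.ge_const κ)
        rw [← hκ, ← map_sub] at hj
        refine P.not_ge_one_const (sub_ne_zero.2 ?_) hj
        intro h7
        apply hxa (c0, j)
        change x c0 = algebraMap L E (a (c0, j))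
        rw [← hκ, h7]
      have hcard := Int.ofNat_le.2 (Finset.card_le_card hsub)
      have hb := hbad s hsc hsb
      have hN' : (13 : ℤ) * ht L (x c) ≤ N * ht L (x c) :=
        mul_le_mul_of_nonneg_right (by exact_mod_cast hN) (by positivity)
      linarith

end Pool.Agent.PRS.H47H
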